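import Mathlib
import Pool.Agent.Lib.MP_5a5e3d_al.DgDefs
import Pool.Agent.Lib.MP_5a5e3d_al.DgEmbed
import Pool.Agent.Lib.MP_5a5e3d_al.DgGraph

/-! Baumslag-Solitar digraph groups over triangle-free graphs that contain a cycle (Higman's groups
among them) are incoherent: they have a finitely generated subgroup that is not finitely
presented. -/

namespace Pool.Agent.Results.MP_5a5e3d_al.BSDigraphIncoherent

open Pool.Agent.Lib.MP_5a5e3d_al

theorem result {V : Type} [Finite V] (r : V → V → Prop) (m n : V → V → ℕ)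
    (hr : ∀ u v, r u v → ¬ r v u)
    (hmn : ∀ u v, r u v → 1 ≤ m u v ∧ 1 ≤ n u v ∧ Nat.Coprime (m u v) (n u v))
    (h3 : (SimpleGraph.fromRel r).CliqueFree 3) (hc : ¬ (SimpleGraph.fromRel r).IsAcyclic) :
    ∃ N : Subgroup (BSDigraph r m n), N.FG ∧ ¬ Group.IsFinitelyPresented N := by
  classical
  have := Fintype.ofFinite V
  have hadj : ∀ u v, r u v ∨ r v u → (SimpleGraph.fromRel r).Adj u v := fun u v h =>
    (SimpleGraph.fromRel_adj r u v).2 ⟨by
      rintro rfl
      exact h.elim (fun a => hr _ _ a a) (fun a => hr _ _ a a), h⟩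
  have htri : ∀ u u' v, r u u' → (r u v ∨ r v u) → (r u' v ∨ r v u') → False :=
    fun u u' v h1 h2 h4 => h3 {u, u', v} (SimpleGraph.is3Clique_triple_iff.2
      ⟨hadj _ _ (Or.inl h1), hadj _ _ h2, hadj _ _ h4⟩)
  obtain ⟨T, s0, s1, hT⟩ := exists_cyc r hr htri hc
  let K : ℕ := ∏ p : V × V, if r p.1 p.2 then m p.1 p.2 * n p.1 p.2 else 1
  have hK : K ≠ 0 := Finset.prod_ne_zero_iff.2 fun p _ => by
    split_ifs with h
    · obtain ⟨h1, h2, -⟩ := hmn _ _ h
      exact Nat.mul_ne_zero (by omega) (by omega)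
    · exact one_ne_zero
  have hdvd : ∀ u v, r u v → m u v * n u v ∣ K := fun u v h => by
    have := Finset.dvd_prod_of_mem
      (fun p : V × V => if r p.1 p.2 then m p.1 p.2 * n p.1 p.2 else 1) (Finset.mem_univ (u, v))
    rwa [if_pos h] at this
  obtain ⟨e, l, he, hl, hcop, hpow⟩ := exists_exp K hK (2 ^ Fintype.card (T : Set V) * 2)
  have hl0 : l ≠ 0 := by have := Nat.two_pow_pos (Fintype.card (T : Set V)); omega
  have hm1 : ∀ u v, r u v → (m u v : ZMod l) ^ e = 1 := fun u v h =>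
    hpow _ ((Dvd.intro _ rfl).trans (hdvd u v h))
  have hn1 : ∀ u v, r u v → (n u v : ZMod l) ^ e = 1 := fun u v h =>
    hpow _ ((Dvd.intro_left _ rfl).trans (hdvd u v h))
  have har : ∀ u v, r u v → Ar e l (m u v) (n u v) := fun u v h => by
    obtain ⟨h1, h2, -⟩ := hmn _ _ h
    exact ar_of_exp he (by omega) (by omega)
      (hcop.of_isCoprime_of_dvd_right (Int.natCast_dvd_natCast.2 (hdvd u v h)))
      (hm1 u v h) (hn1 u v h)
  have hvx : ∀ u v, r u v → Vx ((PresentedGroup.of u : BSDigraph r m n) ^ e)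
      (PresentedGroup.of v ^ e) l l := by
    intro u v h
    have d1 : (l : ℤ) ∣ (m u v ^ e : ℕ) - 1 := by
      rw [← ZMod.intCast_zmod_eq_zero_iff_dvd]
      push_cast
      rw [hm1 u v h, sub_self]
    have d2 : (l : ℤ) ∣ (n u v ^ e : ℕ) - 1 := by
      rw [← ZMod.intCast_zmod_eq_zero_iff_dvd]
      push_cast
      rw [hn1 u v h, sub_self]
    refine vx_of_bs' (M := m u v ^ e) (N := n u v ^ e) ?_ hl0
      (Nat.isCoprime_iff_coprime.2 ((hmn u v h).2.2.pow e e)) ?_ ?_
    · have := (bs_of r m n h).conj_pow e e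
      rw [BS, ← pow_mul, ← pow_mul _ e (n u v ^ e), ← zpow_natCast _ (e * _),
        ← zpow_natCast _ (e * _)]
      push_cast
      exact this
    · obtain ⟨c, hc⟩ := d1
      exact ⟨1, -c, by linear_combination hc⟩
    · simpa using dvd_sub d2 d1
  exact core_dg hT hl (a := fun s : (T : Set V) => (PresentedGroup.of s.1 : BSDigraph r m n) ^ e)
    (fun s t h => h.elim (hvx _ _) fun h' => (hvx _ _ h').symm)
    fun W _ w h1 h2 ω hω => word_trivial hr htri har he _ w h1
      (fun s t h => h2 s t (Or.inl h)) ω hω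

end Pool.Agent.Results.MP_5a5e3d_al.BSDigraphIncoherent
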