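import Mathlib
import Pool.Agent.Lib.MP_5a5e3d_al.RingC

/-! Group rings of arithmetic-type lattices in a product of two copies of `SL₂` over a valued field
are not coherent. -/

namespace Pool.Agent.Results.MP_5a5e3d_al.RingIncoherent

open Matrix
open scoped MatrixGroups

/-- All entries of the matrix `u` have absolute value at most `D`. -/
def Bd {F : Type} [NormedField F] (D : ℝ) (u : Matrix (Fin 2) (Fin 2) F) : Prop :=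
  ∀ i j, ‖u i j‖ ≤ D

theorem result {k F E Γ : Type} [CommRing k] [IsDomain k] [IsPrincipalIdealRing k]
    [NormedField F] [IsUltrametricDist F] [Algebra k F]
    [SeminormedAddCommGroup E] [IsUltrametricDist E] [Module k E] [Module.IsTorsionFree k E]
    [Group Γ]
    (hinj : Function.Injective (algebraMap k F)) (hkF : ∀ c : k, ‖algebraMap k F c‖ ≤ 1)
    (hkE : ∀ (c : k) (e : E), ‖c • e‖ ≤ ‖e‖)
    (F₀ : Subfield F) (ϖ : F) (hϖ : ϖ ∈ F₀) (h0 : ϖ ≠ 0) (h1 : ‖ϖ‖ < 1)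
    (ρ₁ ρ₂ : Γ →* SL(2, F)) (σ : Γ →* Module.End k E)
    (hσ : ∀ γ, ∃ C : ℝ, ∀ e, ‖σ γ e‖ ≤ C * ‖e‖)
    (proper : ∀ D : ℝ, {γ | Bd D (ρ₁ γ).1 ∧ Bd D (ρ₂ γ).1}.Finite)
    (cobounded : ∃ D : ℝ, ∀ g₁ g₂ : SL(2, F), (∀ i j, g₁.1 i j ∈ F₀) → (∀ i j, g₂.1 i j ∈ F₀) →
      ∃ γ, Bd D ((ρ₁ γ)⁻¹ * g₁).1 ∧ Bd D ((ρ₂ γ)⁻¹ * g₂).1)
    (M : Submodule k (Matrix (Fin 2) (Fin 2) F × E))
    (invariant : ∀ γ, ∀ x ∈ M, ((ρ₁ γ).1 * x.1 * (ρ₂ γ).1ᵀ, σ γ x.2) ∈ M)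
    (net : ∃ C : ℝ, ∀ x : Matrix (Fin 2) (Fin 2) F × E,
      ∃ m ∈ M, Bd C (x.1 - m.1) ∧ ‖x.2 - m.2‖ ≤ C)
    (discrete : ∀ C : ℝ, ∃ Λ : Submodule k (Matrix (Fin 2) (Fin 2) F × E), Λ.FG ∧
      ∀ m ∈ M, Bd C m.1 → ‖m.2‖ ≤ C → m ∈ Λ) :
    ∃ I : Ideal (MonoidAlgebra k Γ), I.FG ∧
      ¬ Module.FinitePresentation (MonoidAlgebra k Γ) I := by
  have : Module.IsTorsionFree k F := Module.isTorsionFree_iff_algebraMap_injective.mpr hinj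
  by_contra h
  exact Pool.Agent.Lib.MP_5a5e3d_al.Ring.not_coh hkF hkE F₀ hϖ h0 h1 ρ₁ ρ₂ σ hσ proper cobounded M
    invariant net discrete fun N hN => by_contra fun h' => h ⟨N, hN, h'⟩

end Pool.Agent.Results.MP_5a5e3d_al.RingIncoherent
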